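import Pool.Agent.W853.KI.MA1c

/-!
# Step A in the annuli of the dislocated plane: the deterministic part
-/

set_option autoImplicit false

namespace Pool.Agent.W853.KI
open H974 H906.Cyl
open H12S (Dir hbE segD rimE H4 Crs Nr sqE)
open Pool.Agent.H160R2.ML (nm)
open Pool.Agent.H160R2.MU (Cel csq cpos EP inSq)
open Pool.Agent.W801.OU
open Pool.Agent.W808.KZ (vp fp AdmZ OutF LandZ nrp ZCr mrg)
open Pool.Agent.W424.KI

namespace TMA1

namespace Ctx

variable {c : Ctx} {s : ℕ}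

/-- links of the final configuration at explored, closed region and tube squares -/
theorem B_eb {e : Edg} (hb : e ∈ bxz (c.R : ℤ)) (h1 : e ∈ c.eb) (h2 : e ∈ c.X) :
    e ∈ c.B ↔ e ∈ c.A := by
  rw [mem_B]
  have h3 := cf_eb (H := c.F) hb h1
  have h4 : e ∈ c.A ↔ e ∈ c.F := h3
  rw [h4, mem_mrg]
  have := bxz_box hb
  tauto

theorem B_G {e : Edg} (hb : e ∈ bxz (c.R : ℤ)) (h1 : e ∈ c.eb ∨ e ∈ c.et) (h2 : e ∉ c.X)
    (h3 : e ∉ c.B) : e ∉ c.G := by
  intro h4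
  exact h3 (mem_B.2 ⟨bxz_box hb, h1, mem_mrg.2 (Or.inr ⟨h4, h2⟩)⟩)

theorem B_clo {e : Edg} (h1 : e ∉ c.eb) (h2 : e ∉ c.et) : e ∉ c.B := by
  rw [mem_B]
  tauto

theorem X_eb {e : Edg} (h : e ∈ c.X) : e ∈ c.eb := (mem_X.1 h).2.1

/-- a link at a point of `K` outside the tube -/
theorem K_link {e : Edg} (he : e ∈ bxz (c.R : ℤ)) (hz : e ∉ zp {0})
    {k j t : ℤ} (hk : k = 0 ∨ k = 1) (hC : Cn k e j t) (hx : c.K (nrm {0} (dco e) j t))
    (h : e ∈ c.eb ∨ e ∉ c.et) : e ∈ c.B ↔ e ∈ c.A := by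
  by_cases hb : e ∈ c.eb
  · refine B_eb he hb (touch he hb hx ?_)
    rcases hk with rfl | rfl
    · exact Or.inl ((cor_iff (Or.inl rfl)).2 ⟨hz, j, t, hC, rfl⟩)
    · exact Or.inr ((cor_iff (Or.inr rfl)).2 ⟨hz, j, t, hC, rfl⟩)
  · have ht : e ∉ c.et := by tauto
    exact ⟨fun h => absurd h (B_clo hb ht), fun h => absurd h (cf_clo hb ht)⟩

/-- connections of `K` remain -/
theorem K_B (S : Sit c) (hs : c.Av s) {x y : ℤ × ℤ} (hx : c.K x) (h : c.cn c.A x y) :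
    c.cn c.B x y := by
  have := rz_ind (P := fun y => c.cn c.A x y ∧ c.cn c.B x y) ?_ h ⟨cn_rfl, cn_rfl⟩
  · exact this.2
  · rintro y z hyz ⟨h1, h2⟩
    obtain ⟨e, he, hz, k, j, t, hk, hG, hC, e1, e2⟩ := link_cn hyz
    have hyz' : c.cn c.A y z := by
      rw [e1, e2]
      exact cn_link he hz hk hG hC
    have hKy : c.K y := K_conn hx h1
    refine ⟨h1.trans hyz', h2.trans ?_⟩
    by_cases hcase : e ∈ c.eb ∨ e ∉ c.et
    · rw [e1, e2]
      refine cn_link he hz hk ?_ hC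
      rw [e1] at hKy
      rw [hG]
      exact (K_link he hz hk hC hKy hcase).symm
    · exfalso
      rw [not_or, not_not] at hcase
      have hk0 : k = 0 := hG.2 (cf_et S.g hcase.1 hcase.2)
      subst hk0
      exact nK_T S hs (K_conn hKy (tub_T S.g S.z3 S.z2 hcase.2
        ((cor_iff (Or.inl rfl)).2 ⟨hz, j, t, hC, e1⟩)))

/-- coordinates of a face -/
theorem fc_eq {p : ℤ × ℤ} (h : (p.1 + p.2) % 2 = 1) :
    p.1 = (fc p).1 + (fc p).2 + 1 ∧ p.2 = (fc p).1 - (fc p).2 := by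
  unfold fc
  simp only
  omega

/-- points near the tube -/
theorem near (S : Sit c) {l : ℕ} (hl : 2048 * l ≤ c.r) (hr : 2048 ≤ c.r) {u p : ℤ × ℤ}
    (hu : DeA c.N c.L c.r c.Ci c.Co u) (hu1 : (u.1 + u.2) % 2 = 1) (hp1 : (p.1 + p.2) % 2 = 1)
    (h : Nr (4 * l) (fc u) (fc p)) : Far p ∧ InB c p := by
  obtain ⟨e, he1, he2, hcor⟩ := hu
  obtain ⟨hz, j, t, hC, hu2⟩ := (cor_iff (Or.inr rfl)).1 hcor
  have hq := tub_nq S.g S.z3 he2
  rw [Nq_nrm hq hC.1] at hu2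
  have g1 := tub_geo S.g S.z3 he2
  have g2 := clo_bd (geo_r S.g) he1
  have g3 := geo_bd S.g
  have g4 := dco_bd e
  obtain ⟨f1, f2⟩ := fc_eq hu1
  obtain ⟨f3, f4⟩ := fc_eq hp1
  have n1 := abs_le.1 h.1
  have n2 := abs_le.1 h.2
  have hj : u.1 = j := by rw [hu2]
  have ht : u.2 = t := by rw [hu2]
  obtain ⟨c1, c2, _⟩ := hC
  have hl' : 2048 * (l : ℤ) ≤ c.r := by exact_mod_cast hl
  have hr' : (2048 : ℤ) ≤ c.r := by exact_mod_cast hr
  constructor
  · unfold Far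
    omega
  · intro s' d' h1 h2
    apply nm_bd
    all_goals
      rw [edz_s, edz_d]
      omega

/-- the final clusters of the points of `K` -/
def Inv (c : Ctx) (z0 x : ℤ × ℤ) : Prop := c.cn c.A z0 x ∨
  (¬ c.K x ∧ (x.1 + x.2) % 2 = 1 ∧ (∀ v, Nb x v → c.cn c.A1 v c.T) ∧
    ∃ u, DeA c.N c.L c.r c.Ci c.Co u ∧ c.cn c.A z0 u ∧ (u.1 + u.2) % 2 = 1 ∧
      Reach (Cp 1 (↑c.G : Set Edg)) (fc u) (fc x))

theorem nrp_of {l : ℕ} {u v : ℤ × ℤ} (hu : (u.1 + u.2) % 2 = 1) (hv : (v.1 + v.2) % 2 = 1)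
    (h : Nr (4 * l) (fc u) (fc v)) : nrp l u v := by
  obtain ⟨f1, f2⟩ := fc_eq hu
  obtain ⟨f3, f4⟩ := fc_eq hv
  have n1 := abs_le.1 h.1
  have n2 := abs_le.1 h.2
  unfold nrp
  rw [abs_le, abs_le]
  omega

theorem dea_nm (S : Sit c) {u : ℤ × ℤ} (hu : DeA c.N c.L c.r c.Ci c.Co u)
    (hu1 : (u.1 + u.2) % 2 = 1) : nm (fc u) ≤ 2 * (c.L * c.r : ℕ) := by
  obtain ⟨e, he1, he2, hcor⟩ := hu
  obtain ⟨hz, j, t, hC, hu2⟩ := (cor_iff (Or.inr rfl)).1 hcor
  have hq := tub_nq S.g S.z3 he2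
  rw [Nq_nrm hq hC.1] at hu2
  have g2 := clo_bd (geo_r S.g) he1
  have g3 := geo_bd S.g
  have g4 := dco_bd e
  obtain ⟨f1, f2⟩ := fc_eq hu1
  have hj : u.1 = j := by rw [hu2]
  have ht : u.2 = t := by rw [hu2]
  obtain ⟨c1, c2, _⟩ := hC
  rw [nm_iff]
  push_cast
  omega

/-- a point of the tube of class `1` has a neighbour of class `0` of the tube -/
theorem dea_T (S : Sit c) {u : ℤ × ℤ} (hu : DeA c.N c.L c.r c.Ci c.Co u) :
    ∃ vT, (SdR c.R u vT ∨ SdR c.R vT u) ∧ c.cn c.A1 vT c.T := by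
  obtain ⟨e, he1, he2, hcor⟩ := hu
  obtain ⟨hz, j, t, hC, hu2⟩ := (cor_iff (Or.inr rfl)).1 hcor
  have hq := tub_nq S.g S.z3 he2
  rw [Nq_nrm hq hC.1] at hu2
  have he : e ∈ bxz (c.R : ℤ) := clo_bxz S.g he1
  refine ⟨(2 * (e.1 + e.2.1) + 1 - j, t), ?_, ?_⟩
  · rw [hu2]
    exact sd_h he hq hC.1 hC.2.1
  · have hCa : Cn 0 e (2 * (e.1 + e.2.1) + 1 - j) t := by
      obtain ⟨h1, h2, h4⟩ := hC
      exact ⟨by omega, h2, by omega⟩
    exact tub_T S.g S.z3 S.z2 he2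
      ((cor_iff (Or.inl rfl)).2 ⟨hz, _, _, hCa, (Nq_nrm hq hCa.1).symm⟩)

/-- one step -/
theorem step (S : Sit c) (hs : c.Av s) (hR : 1 ≤ c.R) {l : ℕ} (hl : 2048 * l ≤ c.r)
    (hr : 2048 ≤ c.r) (hP : PTr 1 c.L c.r l (↑c.G : Set Edg))
    (hsep : ∀ x x' u u' : ℤ × ℤ, c.xe x → c.xe x' → c.cn c.A x u → c.cn c.A x' u' →
      DeA c.N c.L c.r c.Ci c.Co u → DeA c.N c.L c.r c.Ci c.Co u' → nrp l u u' → c.cn c.A x x')
    {z0 : ℤ × ℤ} (hz0 : c.K z0) {x y : ℤ × ℤ}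
    (hxy : LZ {0} (bxz c.R) c.B x y ∨ LZ {0} (bxz c.R) c.B y x) (hx : Inv c z0 x) :
    Inv c z0 y := by
  -- returning to `K` or not
  have fin : ∀ u y : ℤ × ℤ, DeA c.N c.L c.r c.Ci c.Co u → c.cn c.A z0 u → (u.1 + u.2) % 2 = 1 →
      (y.1 + y.2) % 2 = 1 → Reach (Cp 1 (↑c.G : Set Edg)) (fc u) (fc y) →
      (c.K y → DeA c.N c.L c.r c.Ci c.Co y) → (¬ c.K y → ∃ v, Nb y v ∧ c.cn c.A1 v c.T) →
      Inv c z0 y := by
    intro u y hu h1 hu1 hy1 hre hK hT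
    have hnr : Nr (4 * l) (fc u) (fc y) := hP _ _ (dea_nm S hu hu1) hre
    by_cases hKy : c.K y
    · left
      obtain ⟨x0, k1, k2⟩ := K_src (K_conn hz0 h1)
      obtain ⟨x1, k3, k4⟩ := K_src hKy
      have h2 := hsep x0 x1 u y k1 k3 k2.symm k4.symm hu (hK hKy) (nrp_of hu1 hy1 hnr)
      exact h1.trans (k2.trans (h2.trans k4.symm))
    · right
      obtain ⟨hf, hb⟩ := near S hl hr hu hu1 hy1 hnr
      obtain ⟨v, hv1, hv2⟩ := hT hKy
      obtain ⟨vT, t1, t2⟩ := dea_T S hu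
      exact ⟨hKy, hy1, four S hs hR (K_conn hz0 h1) t1 t2 hKy hf hb hy1 hv1 hv2,
        u, hu, h1, hu1, hre⟩
  obtain ⟨e, he, hz, k, j, t, hk, hG, hC, e1, e2⟩ := link_cn hxy
  rcases hx with hx | ⟨hnK, hodd, h4, u, hu, hzu, hu1, hre⟩
  · have hKx : c.K x := K_conn hz0 hx
    by_cases hcase : e ∈ c.eb ∨ e ∉ c.et
    · left
      refine hx.trans ?_
      rw [e1, e2]
      refine cn_link he hz hk ?_ hC
      rw [e1] at hKx
      rw [hG]
      exact K_link he hz hk hC hKx hcase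
    · rw [not_or, not_not] at hcase
      obtain ⟨hb, ht⟩ := hcase
      have hq := tub_nq S.g S.z3 ht
      rcases hk with rfl | rfl
      · exfalso
        exact nK_T S hs (K_conn hKx (tub_T S.g S.z3 S.z2 ht
          ((cor_iff (Or.inl rfl)).2 ⟨hz, j, t, hC, e1⟩)))
      · have hB : e ∉ c.B := fun h => by simpa using hG.2 h
        have hX : e ∉ c.X := fun h => hb (X_eb h)
        have hGe := B_G he (Or.inr ht) hX hB
        have hCo := Cn_opp hC
        rw [Nq_nrm hq hC.1] at e1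
        rw [Nq_nrm hq hCo.1] at e2
        have hadj := face_adj (G := (↑c.G : Set Edg)) hGe hC
        rw [← e1, ← e2] at hadj
        have d1 : DeA c.N c.L c.r c.Ci c.Co x :=
          ⟨e, hb, ht, (cor_iff (Or.inr rfl)).2 ⟨hz, j, t, hC, by rw [e1, Nq_nrm hq hC.1]⟩⟩
        have d2 : DeA c.N c.L c.r c.Ci c.Co y :=
          ⟨e, hb, ht, (cor_iff (Or.inr rfl)).2 ⟨hz, _, _, hCo, by rw [e2, Nq_nrm hq hCo.1]⟩⟩
        have o1 : (x.1 + x.2) % 2 = 1 := by rw [e1]; exact hC.2.2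
        have o2 : (y.1 + y.2) % 2 = 1 := by rw [e2]; exact hCo.2.2
        refine fin x y d1 hx o1 o2 (Relation.ReflTransGen.single hadj) (fun _ => d2) (fun _ => ?_)
        refine ⟨(2 * (e.1 + e.2.1) + 1 - j, t), ?_, ?_⟩
        · rw [e2]
          obtain ⟨c1, c2, c3⟩ := hC
          refine Or.inl ⟨rfl, ?_⟩
          show t = 2 * dco e + 1 - t + 1 ∨ t = 2 * dco e + 1 - t - 1
          omega
        · have hCa : Cn 0 e (2 * (e.1 + e.2.1) + 1 - j) t := by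
            obtain ⟨h1, h2, h4⟩ := hC
            exact ⟨by omega, h2, by omega⟩
          exact tub_T S.g S.z3 S.z2 ht
            ((cor_iff (Or.inl rfl)).2 ⟨hz, _, _, hCa, (Nq_nrm hq hCa.1).symm⟩)
  · have hnr : Nr (4 * l) (fc u) (fc x) := hP _ _ (dea_nm S hu hu1) hre
    obtain ⟨hf, _⟩ := near S hl hr hu hu1 hodd hnr
    obtain ⟨hq, e1'⟩ := far_nq hf hC.1 hC.2.1 e1
    have hCo := Cn_opp hC
    rw [Nq_nrm hq hCo.1] at e2
    have hk1 : k = 1 := by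
      have := hC.2.2
      rw [e1'] at hodd
      simp only at hodd
      omega
    subst hk1
    have hB : e ∉ c.B := fun h => by simpa using hG.2 h
    -- not in the closed region
    have hreg : e ∈ c.eb ∨ e ∈ c.et := by
      by_contra h
      rw [not_or] at h
      exact hnK (K_xe ⟨e, h, (cor_iff (Or.inr rfl)).2 ⟨hz, j, t, hC, e1⟩⟩)
    have hX : e ∉ c.X := by
      intro hX
      have hb := X_eb hX
      have hA : e ∉ c.A := fun h => hB ((B_eb he hb hX).2 h)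
      have hlk := cn_link (G := c.A) he hz (Or.inr rfl) (by simp [hA]) hC
      rw [Nq_nrm hq hC.1, Nq_nrm hq hCo.1, ← e1', ← e2] at hlk
      obtain ⟨_, _, w, hw, hcor⟩ := mem_X.1 hX
      rcases hcor with hcor | hcor
      · obtain ⟨_, j', t', hC', hw'⟩ := (cor_iff (Or.inl rfl)).1 hcor
        rw [Nq_nrm hq hC'.1] at hw'
        have hnb : Nb x w := by
          rw [e1', hw']
          unfold Nb
          obtain ⟨k1, k2, k3⟩ := hC
          obtain ⟨k4, k5, k6⟩ := hC'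
          simp only
          omega
        exact nK_T1 S hs hw (h4 w hnb)
      · obtain ⟨_, j', t', hC', hw'⟩ := (cor_iff (Or.inr rfl)).1 hcor
        rw [Nq_nrm hq hC'.1] at hw'
        have : w = x ∨ w = y := by
          rw [hw', e1', e2]
          obtain ⟨k1, k2, k3⟩ := hC
          obtain ⟨k4, k5, k6⟩ := hC'
          simp only [Prod.mk.injEq]
          omega
        rcases this with rfl | rfl
        · exact hnK hw
        · exact hnK (K_conn hw (cn.symm hlk))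
    have hGe := B_G he hreg hX hB
    have hadj := face_adj (G := (↑c.G : Set Edg)) hGe hC
    rw [← e1', ← e2] at hadj
    have o2 : (y.1 + y.2) % 2 = 1 := by rw [e2]; exact hCo.2.2
    refine fin u y hu hzu hu1 o2 (hre.tail hadj) (fun hKy => ?_) (fun _ => ?_)
    · have hcy : Cor {0} 1 e y :=
        (cor_iff (Or.inr rfl)).2 ⟨hz, _, _, hCo, by rw [e2, Nq_nrm hq hCo.1]⟩
      have hb : e ∉ c.eb := fun hb => hX (touch he hb hKy (Or.inr hcy))
      exact ⟨e, hb, hreg.resolve_left hb, hcy⟩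
    · refine ⟨(2 * (e.1 + e.2.1) + 1 - j, t), ?_, h4 _ ?_⟩
      · rw [e2]
        obtain ⟨c1, c2, c3⟩ := hC
        refine Or.inl ⟨rfl, ?_⟩
        show t = 2 * dco e + 1 - t + 1 ∨ t = 2 * dco e + 1 - t - 1
        omega
      · rw [e1']
        obtain ⟨c1, c2, c3⟩ := hC
        refine Or.inr ⟨rfl, ?_⟩
        show 2 * (e.1 + e.2.1) + 1 - j = j + 1 ∨ 2 * (e.1 + e.2.1) + 1 - j = j - 1
        omega

end Ctx

end TMA1

open TMA1 TMA1.Ctx in
/-- **step A, deterministic part** -/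
theorem t_MA1 : S_TRIB → S_ONB → S_COC → S_NA → S_XCH → S_z2 → S_z3 → S_EX → S_EXA1 → S_SEPA →
    S_MA1 := by
  intro tri onb coc na xch z2 z3 ex exa sepa N L r ρ l Ci Co R g hl hlρ hρr F G hF hG hbad hP hEZ
  obtain ⟨hse, s, hs3, hs⟩ := hEZ
  have hR : 1 ≤ R := by
    have h1 := g.hR
    have h2 : 1 ≤ L * r := Nat.mul_pos (by have := g.hL; have := g.hN; omega)
      (by have := g.hr; omega)
    omega
  let c : Ctx := ⟨N, L, r, Ci, Co, R, F, G⟩
  have S : Sit c := ⟨g, z2, z3, coc, na, xch, onb, exa, tri, hF, hG, hse⟩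
  have hav : c.Av s := ⟨hs3, hs⟩
  have hsep : ∀ x x' u u' : ℤ × ℤ, c.xe x → c.xe x' → c.cn c.A x u → c.cn c.A x' u' →
      DeA c.N c.L c.r c.Ci c.Co u → DeA c.N c.L c.r c.Ci c.Co u' → nrp l u u' →
      c.cn c.A x x' := by
    intro x x' u u' h1 h2 h3 h4 h5 h6 h7
    exact sepa N L r ρ l Ci Co R g hl hlρ hρr F hF hbad x x' u u' (Or.inr (Or.inl h1))
      (Or.inr (Or.inl h2)) h3 h4 h5 h6 h7
  have hl' : 2048 * l ≤ c.r := by
    show 2048 * l ≤ r
    omega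
  have hr' : 2048 ≤ c.r := by
    show 2048 ≤ r
    omega
  have inv : ∀ z0 x, c.K z0 → c.cn c.B z0 x → Inv c z0 x := by
    intro z0 x hz0 h
    exact rz_ind (P := fun x => Inv c z0 x)
      (fun x y hxy hx => step S hav hR hl' hr' hP hsep hz0 hxy hx) h (Or.inl cn_rfl)
  -- points of `K` are connected as before
  have hKK : ∀ x y, c.K x → c.K y → c.cn c.B x y → c.cn c.A x y := by
    intro x y hx hy h
    rcases inv x y hx h with h | h
    · exact h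
    · exact absurd hy h.1
  have hka : ∀ a, a < 3 → a ≠ s → c.K (scz 0 0 a) := fun a ha hne => K_a S hav ha hne
  -- the sector `s` is not connected to the others
  have hsa : ∀ a, a < 3 → a ≠ s → ¬ c.cn c.B (scz 0 0 a) (scz 0 0 s) := by
    intro a ha hne h
    obtain ⟨b, hb, hba, hbs⟩ : ∃ b : ℕ, b < 3 ∧ b ≠ a ∧ b ≠ s :=
      ⟨3 - a - s, by omega, by omega, by omega⟩
    have h1 := tri R c.B hR b a s hb ha hs3 hba hbs hne h
    obtain ⟨x, h2, h3⟩ := tou_se S.se hb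
    exact h1.2 ⟨x, K_B S hav (hka b hb hbs) h2, h3⟩
  have hpair : ∀ a b : ℕ, a < 3 → b < 3 → a ≠ b → ¬ c.cn c.B (scz 0 0 a) (scz 0 0 b) := by
    intro a b ha hb hab h
    by_cases h1 : a = s
    · subst h1
      exact hsa b hb (Ne.symm hab) (cn.symm h)
    · by_cases h2 : b = s
      · subst h2
        exact hsa a ha h1 h
      · exact S.se.1 a b ha hb hab (hKK _ _ (hka a ha h1) (hka b hb h2) h)
  refine ⟨(onb R c.B hR).2.2 hpair, s, hs3, ?_⟩
  -- the closed region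
  intro x hx hcon
  obtain ⟨a, b, ha, hb, has, hbs, hab⟩ : ∃ a b : ℕ, a < 3 ∧ b < 3 ∧ a ≠ s ∧ b ≠ s ∧ a ≠ b := by
    have h3 := hs3
    interval_cases s
    · exact ⟨1, 2, by norm_num, by norm_num, by norm_num, by norm_num, by norm_num⟩
    · exact ⟨0, 2, by norm_num, by norm_num, by norm_num, by norm_num, by norm_num⟩
    · exact ⟨0, 1, by norm_num, by norm_num, by norm_num, by norm_num, by norm_num⟩
  obtain ⟨pa, pb, ex1, _⟩ := ex N L r Ci Co R g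
  obtain ⟨xa, ka1, ka2⟩ := K_src (hka a ha has)
  obtain ⟨xb, kb1, kb2⟩ := K_src (hka b hb hbs)
  have hclo : ∀ x y, RZ {0} (Clo N L r Ci Co) ∅ x y → c.cn c.A x y := fun x y h => clo_cn S h
  have hKx : c.K x := K_xe hx
  have tgt : ∀ d, d < 3 → d ≠ s → c.cn c.A (scz 0 0 d) x → False := by
    intro d hd hds h
    exact hsa d hd hds ((K_B S hav (hka d hd hds) h).trans (cn.symm hcon))
  have e1 := ex1 xa ka1
  have e2 := ex1 xb kb1
  have e3 := ex1 x hx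
  have hne : ¬ c.cn c.A xa xb := fun h =>
    S.se.1 a b ha hb hab (ka2.trans (cn.trans h (cn.symm kb2)))
  rcases e1 with e1 | e1 <;> rcases e2 with e2 | e2
  · exact hne (cn.trans (hclo _ _ e1) (cn.symm (hclo _ _ e2)))
  · rcases e3 with e3 | e3
    · exact tgt a ha has (ka2.trans (cn.trans (hclo _ _ e1) (cn.symm (hclo _ _ e3))))
    · exact tgt b hb hbs (kb2.trans (cn.trans (hclo _ _ e2) (cn.symm (hclo _ _ e3))))
  · rcases e3 with e3 | e3
    · exact tgt b hb hbs (kb2.trans (cn.trans (hclo _ _ e2) (cn.symm (hclo _ _ e3))))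
    · exact tgt a ha has (ka2.trans (cn.trans (hclo _ _ e1) (cn.symm (hclo _ _ e3))))
  · exact hne (cn.trans (hclo _ _ e1) (cn.symm (hclo _ _ e2)))

end Pool.Agent.W853.KI
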