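import Pool.Agent.W424.KI.Stm

set_option autoImplicit false

namespace Pool.Agent.W853.KI
open H974 H906.Cyl
open H12S (Dir hbE segD rimE H4 Crs Nr sqE)
open Pool.Agent.H160R2.ML (nm)
open Pool.Agent.H160R2.MU (Cel csq cpos EP inSq)
open Pool.Agent.W801.OU
open Pool.Agent.W808.KZ (vp fp AdmZ OutF LandZ nrp ZCr mrg)
open Pool.Agent.W424.KI

namespace TMA1

/-! ### points and squares -/

theorem nrm_cases (d j t : ℤ) : (nrm {0} d j t).2 = t ∧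
    (((nrm {0} d j t).1 = j ∧ ¬ (d < 0 ∧ j = 0)) ∨ ((nrm {0} d j t).1 = j - 1 ∧ d < 0 ∧ j = 0)) := by
  unfold nrm
  by_cases h : d < 0 ∧ j ∈ ({0} : Set ℤ)
  · rw [if_pos h]
    exact ⟨rfl, Or.inr ⟨rfl, h.1, h.2⟩⟩
  · rw [if_neg h]
    exact ⟨rfl, Or.inl ⟨rfl, h⟩⟩

theorem nrm_of {d j t : ℤ} (h : ¬ (d < 0 ∧ j = 0)) : nrm {0} d j t = (j, t) := by
  unfold nrm
  rw [if_neg (by exact h)]

/-- corner data: `(j, t)` is a corner of class `k` of the square of `e` -/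
def Cn (k : ℤ) (e : Edg) (j t : ℤ) : Prop :=
  (j = e.1 + e.2.1 ∨ j = e.1 + e.2.1 + 1) ∧ (t = dco e ∨ t = dco e + 1) ∧ (j + t) % 2 = k

theorem zp_iff {e : Edg} : e ∈ zp {0} ↔ dco e < 0 ∧ e.1 + e.2.1 + 1 = 0 := Iff.rfl

theorem Cn_opp {k : ℤ} {e : Edg} {j t : ℤ} (h : Cn k e j t) :
    Cn k e (2 * (e.1 + e.2.1) + 1 - j) (2 * dco e + 1 - t) := by
  obtain ⟨h1, h2, h3⟩ := h
  refine ⟨by omega, by omega, by omega⟩

theorem dg_cn {k : ℤ} {e : Edg} {x y : ℤ × ℤ} (_hk : k = 0 ∨ k = 1)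
    (h : Dg {0} k e x y ∨ Dg {0} k e y x) :
    ∃ j t, Cn k e j t ∧ x = nrm {0} (dco e) j t ∧
      y = nrm {0} (dco e) (2 * (e.1 + e.2.1) + 1 - j) (2 * dco e + 1 - t) := by
  rcases h with h | h
  · cases h with
    | rise h1 =>
      refine ⟨e.1 + e.2.1, dco e, ⟨Or.inl rfl, Or.inl rfl, h1⟩, rfl, ?_⟩
      congr 1 <;> ring
    | fall h1 =>
      refine ⟨e.1 + e.2.1, dco e + 1, ⟨Or.inl rfl, Or.inr rfl, by omega⟩, rfl, ?_⟩
      congr 1 <;> ring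
  · cases h with
    | rise h1 =>
      refine ⟨e.1 + e.2.1 + 1, dco e + 1, ⟨Or.inr rfl, Or.inr rfl, by omega⟩, rfl, ?_⟩
      congr 1 <;> ring
    | fall h1 =>
      refine ⟨e.1 + e.2.1 + 1, dco e, ⟨Or.inr rfl, Or.inl rfl, by omega⟩, rfl, ?_⟩
      congr 1 <;> ring

theorem cn_dg {k : ℤ} {e : Edg} {j t : ℤ} (_hk : k = 0 ∨ k = 1) (h : Cn k e j t) :
    Dg {0} k e (nrm {0} (dco e) j t)
      (nrm {0} (dco e) (2 * (e.1 + e.2.1) + 1 - j) (2 * dco e + 1 - t)) ∨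
    Dg {0} k e (nrm {0} (dco e) (2 * (e.1 + e.2.1) + 1 - j) (2 * dco e + 1 - t))
      (nrm {0} (dco e) j t) := by
  obtain ⟨rfl | rfl, rfl | rfl, h3⟩ := h
  · left
    have e1 : 2 * (e.1 + e.2.1) + 1 - (e.1 + e.2.1) = e.1 + e.2.1 + 1 := by ring
    have e2 : 2 * dco e + 1 - dco e = dco e + 1 := by ring
    rw [e1, e2]
    exact Dg.rise h3
  · left
    have e1 : 2 * (e.1 + e.2.1) + 1 - (e.1 + e.2.1) = e.1 + e.2.1 + 1 := by ring
    have e2 : 2 * dco e + 1 - (dco e + 1) = dco e := by ring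
    rw [e1, e2]
    exact Dg.fall (by omega)
  · right
    have e1 : 2 * (e.1 + e.2.1) + 1 - (e.1 + e.2.1 + 1) = e.1 + e.2.1 := by ring
    have e2 : 2 * dco e + 1 - dco e = dco e + 1 := by ring
    rw [e1, e2]
    exact Dg.fall (by omega)
  · right
    have e1 : 2 * (e.1 + e.2.1) + 1 - (e.1 + e.2.1 + 1) = e.1 + e.2.1 := by ring
    have e2 : 2 * dco e + 1 - (dco e + 1) = dco e := by ring
    rw [e1, e2]
    exact Dg.rise (by omega)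

theorem cor_iff {k : ℤ} {e : Edg} {x : ℤ × ℤ} (hk : k = 0 ∨ k = 1) :
    Cor {0} k e x ↔ e ∉ zp {0} ∧ ∃ j t, Cn k e j t ∧ x = nrm {0} (dco e) j t := by
  constructor
  · rintro ⟨h1, y, h2⟩
    obtain ⟨j, t, h3, h4, _⟩ := dg_cn hk h2
    exact ⟨h1, j, t, h3, h4⟩
  · rintro ⟨h1, j, t, h3, rfl⟩
    exact ⟨h1, _, cn_dg hk h3⟩

/-- links, with the corner data -/
theorem link_cn {B G : Set Edg} {x y : ℤ × ℤ} (h : LZ {0} B G x y ∨ LZ {0} B G y x) :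
    ∃ e ∈ B, e ∉ zp {0} ∧ ∃ k j t : ℤ, (k = 0 ∨ k = 1) ∧ (k = 0 ↔ e ∈ G) ∧ Cn k e j t ∧
      x = nrm {0} (dco e) j t ∧
      y = nrm {0} (dco e) (2 * (e.1 + e.2.1) + 1 - j) (2 * dco e + 1 - t) := by
  have h' : ∃ e ∈ B, e ∉ zp {0} ∧ ((e ∈ G ∧ (Dg {0} 0 e x y ∨ Dg {0} 0 e y x)) ∨
      (e ∉ G ∧ (Dg {0} 1 e x y ∨ Dg {0} 1 e y x))) := by
    rcases h with ⟨e, h1, h2, h3 | h3⟩ | ⟨e, h1, h2, h3 | h3⟩
    · exact ⟨e, h1, h2, Or.inl ⟨h3.1, Or.inl h3.2⟩⟩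
    · exact ⟨e, h1, h2, Or.inr ⟨h3.1, Or.inl h3.2⟩⟩
    · exact ⟨e, h1, h2, Or.inl ⟨h3.1, Or.inr h3.2⟩⟩
    · exact ⟨e, h1, h2, Or.inr ⟨h3.1, Or.inr h3.2⟩⟩
  obtain ⟨e, h1, h2, ⟨h3, h4⟩ | ⟨h3, h4⟩⟩ := h'
  · obtain ⟨j, t, h5, h6, h7⟩ := dg_cn (Or.inl rfl) h4
    exact ⟨e, h1, h2, 0, j, t, Or.inl rfl, by simp [h3], h5, h6, h7⟩
  · obtain ⟨j, t, h5, h6, h7⟩ := dg_cn (Or.inr rfl) h4
    exact ⟨e, h1, h2, 1, j, t, Or.inr rfl, by simp [h3], h5, h6, h7⟩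

theorem cn_link {B G : Set Edg} {e : Edg} (h1 : e ∈ B) (h2 : e ∉ zp {0}) {k j t : ℤ}
    (hk : k = 0 ∨ k = 1) (h3 : k = 0 ↔ e ∈ G) (h4 : Cn k e j t) :
    RZ {0} B G (nrm {0} (dco e) j t)
      (nrm {0} (dco e) (2 * (e.1 + e.2.1) + 1 - j) (2 * dco e + 1 - t)) := by
  have h5 := cn_dg hk h4
  rcases hk with rfl | rfl
  · have h6 : e ∈ G := h3.1 rfl
    rcases h5 with h5 | h5
    · exact Relation.EqvGen.rel _ _ ⟨e, h1, h2, Or.inl ⟨h6, h5⟩⟩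
    · exact Relation.EqvGen.symm _ _ (Relation.EqvGen.rel _ _ ⟨e, h1, h2, Or.inl ⟨h6, h5⟩⟩)
  · have h6 : e ∉ G := fun h => by simpa using h3.2 h
    rcases h5 with h5 | h5
    · exact Relation.EqvGen.rel _ _ ⟨e, h1, h2, Or.inr ⟨h6, h5⟩⟩
    · exact Relation.EqvGen.symm _ _ (Relation.EqvGen.rel _ _ ⟨e, h1, h2, Or.inr ⟨h6, h5⟩⟩)

theorem rz_ind {Z : Set ℤ} {B G : Set Edg} {P : ℤ × ℤ → Prop}
    (h : ∀ x y, (LZ Z B G x y ∨ LZ Z B G y x) → P x → P y) {x y : ℤ × ℤ}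
    (hxy : RZ Z B G x y) : P x → P y := by
  have h1 : P x ↔ P y := by
    induction hxy with
    | rel x y h1 => exact ⟨h x y (Or.inl h1), h y x (Or.inr h1)⟩
    | refl x => exact Iff.rfl
    | symm x y _ ih => exact ih.symm
    | trans x y z _ _ ih1 ih2 => exact ih1.trans ih2
  exact h1.1

theorem rz_symm {Z : Set ℤ} {B G : Set Edg} {x y : ℤ × ℤ} (h : RZ Z B G x y) : RZ Z B G y x :=
  Relation.EqvGen.symm _ _ h

theorem rz_trans {Z : Set ℤ} {B G : Set Edg} {x y z : ℤ × ℤ} (h : RZ Z B G x y)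
    (h' : RZ Z B G y z) : RZ Z B G x z := Relation.EqvGen.trans _ _ _ h h'

/-- normal squares -/
def Nq (e : Edg) : Prop := 0 ≤ dco e ∨ 1 ≤ e.1 + e.2.1 ∨ e.1 + e.2.1 ≤ -2

theorem Nq_zp {e : Edg} (h : Nq e) : e ∉ zp {0} := by
  rw [zp_iff]
  unfold Nq at h
  omega

theorem Nq_nrm {e : Edg} (h : Nq e) {j t : ℤ} (hj : j = e.1 + e.2.1 ∨ j = e.1 + e.2.1 + 1) :
    nrm {0} (dco e) j t = (j, t) := by
  apply nrm_of
  unfold Nq at h
  omega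

/-- points far from the zipper -/
def Far (p : ℤ × ℤ) : Prop := 2 ≤ p.2 ∨ 2 ≤ p.1 ∨ p.1 ≤ -2

/-- the squares at a far point are normal -/
theorem far_nq {p : ℤ × ℤ} (hp : Far p) {e : Edg} {j t : ℤ}
    (hj : j = e.1 + e.2.1 ∨ j = e.1 + e.2.1 + 1) (ht : t = dco e ∨ t = dco e + 1)
    (h : p = nrm {0} (dco e) j t) : Nq e ∧ p = (j, t) := by
  have h1 := nrm_cases (dco e) j t
  rw [← h] at h1
  unfold Far at hp
  have h2 : Nq e := by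
    unfold Nq
    omega
  exact ⟨h2, by rw [h, Nq_nrm h2 hj]⟩

theorem edz_s (s d : ℤ) : (edz s d).1 + (edz s d).2.1 = s := by
  unfold edz
  split_ifs with h
  · simp only; omega
  · simp only; omega

theorem edz_d (s d : ℤ) : dco (edz s d) = d := by
  unfold edz dco
  split_ifs with h h1 h1
  · simp only; omega
  · simp at h1
  · simp at h1
  · simp only; omega

theorem edz_self (e : Edg) : edz (e.1 + e.2.1) (dco e) = e := by
  obtain ⟨x, y, b⟩ := e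
  unfold edz dco
  cases b
  · simp only [Bool.false_eq_true, if_false]
    rw [if_neg (by omega)]
    simp only [Prod.mk.injEq, and_true]
    omega
  · simp only [if_true]
    rw [if_pos (by omega)]
    simp only [Prod.mk.injEq, and_true]
    omega

theorem edz_inj {e e' : Edg} (h1 : e.1 + e.2.1 = e'.1 + e'.2.1) (h2 : dco e = dco e') : e = e' := by
  rw [← edz_self e, ← edz_self e', h1, h2]

theorem nm_iff {v : Vtx} {K : ℤ} :
    nm v ≤ K ↔ (-K ≤ v.1 ∧ v.1 ≤ K) ∧ (-K ≤ v.2 ∧ v.2 ≤ K) := by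
  unfold nm
  rw [max_le_iff, abs_le, abs_le]

/-- bounds for the ends of an edge in terms of the coordinates of the square -/
theorem nm_bd {e : Edg} {K : ℤ} (h1 : e.1 + e.2.1 + dco e + 4 ≤ 2 * K)
    (h2 : e.1 + e.2.1 - dco e + 4 ≤ 2 * K) (h3 : -(e.1 + e.2.1) + dco e + 4 ≤ 2 * K)
    (h4 : -(e.1 + e.2.1) - dco e + 4 ≤ 2 * K) :
    nm (src e) ≤ K ∧ nm (tgt e) ≤ K := by
  obtain ⟨x, y, b⟩ := e
  rw [nm_iff, nm_iff]
  unfold src tgt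
  cases b
  · simp only [dco, Bool.false_eq_true, if_false] at h1 h2 h3 h4 ⊢
    omega
  · simp only [dco, if_true] at h1 h2 h3 h4 ⊢
    omega

/-- coordinates of an edge of the box -/
theorem bxz_bd {K : ℤ} {e : Edg} (h : e ∈ bxz K) : (-K ≤ e.1 ∧ e.1 ≤ K) ∧
    (-K ≤ e.2.1 ∧ e.2.1 ≤ K) := by
  have h1 := nm_iff.1 h.1
  exact h1

theorem bxz_box {R : ℕ} {e : Edg} (h : e ∈ bxz (R : ℤ)) : e ∈ boxE R := by
  obtain ⟨x, y, b⟩ := e
  obtain ⟨h1, h2⟩ := h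
  rw [nm_iff] at h1 h2
  unfold src at h1
  unfold tgt at h2
  unfold boxE
  cases b
  · simp only [Bool.false_eq_true, if_false] at h2
    simp only [mem_RE_false]
    simp only at h1
    omega
  · simp only [if_true] at h2
    simp only [mem_RE_true]
    simp only at h1
    omega

/-! ### faces -/

/-- the face of a point of class `1` -/
def fc (p : ℤ × ℤ) : Vtx := ((p.1 + p.2 - 1) / 2, (p.1 - p.2 - 1) / 2)

theorem fp_fc {p : ℤ × ℤ} (h : (p.1 + p.2) % 2 = 1) : fp (fc p) = p := by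
  obtain ⟨j, t⟩ := p
  unfold fp fc
  simp only at h ⊢
  simp only [Prod.mk.injEq]
  omega

/-- a normal closed square gives a link of faces -/
theorem face_adj {G : Set Edg} {e : Edg} (he : e ∉ G) {j t : ℤ} (h : Cn 1 e j t) :
    Adj (Cp 1 G) (fc (j, t)) (fc (2 * (e.1 + e.2.1) + 1 - j, 2 * dco e + 1 - t)) := by
  obtain ⟨h1, h2, h3⟩ := h
  refine ⟨edz (e.1 + e.2.1 - 1) (dco e), ?_, ?_⟩
  · unfold Cp
    rw [Set.mem_ofPred_eq, if_neg one_ne_zero, edz_s, edz_d, sub_add_cancel, edz_self]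
    exact he
  · unfold edz fc src tgt
    split_ifs with h4 h5 h5
    · simp only [Prod.mk.injEq]
      omega
    · simp at h5
    · simp at h5
    · simp only [Prod.mk.injEq]
      omega

end TMA1
end Pool.Agent.W853.KI
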