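import Pool.Agent.W853.KI.MA1a

set_option autoImplicit false

namespace Pool.Agent.W853.KI
open H974 H906.Cyl
open H12S (Dir hbE segD rimE H4 Crs Nr sqE)
open Pool.Agent.H160R2.ML (nm)
open Pool.Agent.H160R2.MU (Cel csq cpos EP inSq)
open Pool.Agent.W801.OU
open Pool.Agent.W808.KZ (vp fp AdmZ OutF LandZ nrp ZCr mrg)
open Pool.Agent.W424.KI

namespace TMA1

/-! ### coarse geometry -/

theorem sq_in {r : ℕ} {z : ℤ × ℤ} {e : Edg} (h : e ∈ sqE r z) :
    inSq r z (src e) ∧ inSq r z (tgt e) := by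
  obtain ⟨x, y, b⟩ := e
  unfold sqE at h
  unfold inSq src tgt
  cases b
  · simp only [mem_RE_false] at h
    simp only [Bool.false_eq_true, if_false]
    omega
  · simp only [mem_RE_true] at h
    simp only [if_true]
    omega

theorem sq_own {r : ℕ} (hr : 0 < r) (e : Edg) : e ∈ sqE r (e.1 / r, e.2.1 / r) := by
  obtain ⟨x, y, b⟩ := e
  have hr' : (0 : ℤ) < r := by exact_mod_cast hr
  have h1 := Int.mul_ediv_add_emod x r
  have h2 := Int.mul_ediv_add_emod y r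
  have h3 := Int.emod_nonneg x hr'.ne'
  have h4 := Int.emod_nonneg y hr'.ne'
  have h5 := Int.emod_lt_of_pos x hr'
  have h6 := Int.emod_lt_of_pos y hr'
  unfold sqE
  cases b
  · simp only [mem_RE_false]
    omega
  · simp only [mem_RE_true]
    omega

/-- an edge outside the random region has small coordinates -/
theorem clo_bd {N L r : ℕ} (hr : 0 < r) {e : Edg} (h : e ∉ EB N L r) :
    (-((L : ℤ) * r) ≤ e.1 ∧ e.1 < L * r) ∧ (-((L : ℤ) * r) ≤ e.2.1 ∧ e.2.1 < L * r) := by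
  have hr' : (0 : ℤ) < r := by exact_mod_cast hr
  have h1 : ((e.1 / r, e.2.1 / r) : ℤ × ℤ) ∉ BxI N L := by
    intro h2
    exact h ⟨_, h2, sq_own hr e⟩
  have h2 : (-(L : ℤ) ≤ e.1 / r ∧ e.1 / r < L ∧ -(L : ℤ) ≤ e.2.1 / r ∧ e.2.1 / r < L) := by
    by_contra h3
    exact h1 (Or.inr h3)
  obtain ⟨h3, h4, h5, h6⟩ := h2
  rw [Int.le_ediv_iff_mul_le hr'] at h3 h5
  rw [Int.ediv_lt_iff_lt_mul hr'] at h4 h6
  refine ⟨⟨by linarith, h4⟩, ⟨by linarith, h6⟩⟩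

theorem geo_r {N L r : ℕ} {Ci Co : Cel} {R : ℕ} (g : Geo N L r Ci Co R) : 0 < r := by
  have := g.hr
  omega

/-- basic inequalities, `A = N r`, `B = L r` -/
theorem geo_bd {N L r : ℕ} {Ci Co : Cel} {R : ℕ} (g : Geo N L r Ci Co R) :
    (16 * (r : ℤ) ≤ N * r) ∧ (3 * ((N : ℤ) * r) ≤ L * r) ∧ (4 : ℤ) ≤ r ∧ 4 * ((L : ℤ) * r) ≤ R := by
  have h1 : (16 : ℤ) ≤ N := by exact_mod_cast g.hN
  have h2 : 3 * (N : ℤ) ≤ L := by exact_mod_cast g.hL
  have h3 : (4 : ℤ) ≤ r := by exact_mod_cast g.hr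
  have h4 : 4 * ((L : ℤ) * r) ≤ R := by exact_mod_cast g.hR
  refine ⟨?_, ?_, h3, h4⟩
  · nlinarith
  · nlinarith

theorem dco_bd (e : Edg) : e.1 - e.2.1 - 1 ≤ dco e ∧ dco e ≤ e.1 - e.2.1 := by
  unfold dco
  split_ifs <;> omega

theorem clo_bxz {N L r : ℕ} {Ci Co : Cel} {R : ℕ} (g : Geo N L r Ci Co R) {e : Edg}
    (h : e ∉ EB N L r) : e ∈ bxz (R : ℤ) := by
  have h1 := clo_bd (geo_r g) h
  have h2 := geo_bd g
  have h3 := dco_bd e
  exact nm_bd (by omega) (by omega) (by omega) (by omega)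

theorem tub_geo {N L r : ℕ} {Ci Co : Cel} {R : ℕ} (g : Geo N L r Ci Co R) (hz : S_z3) {e : Edg}
    (h : e ∈ ET N L r Ci Co) :
    15 * (r : ℤ) ≤ dco e ∨ e.1 + e.2.1 ≤ -(4 * (r : ℤ)) ∨ 5 * (r : ℤ) ≤ e.1 + e.2.1 := by
  obtain ⟨z, h1, h2⟩ := h
  obtain ⟨_, _, h3⟩ := (hz N L Ci Co g.hN g.hL g.hi g.ho _ rfl).2.2 z h1
  obtain ⟨h4, h5⟩ := sq_in h2
  have hr : (0 : ℤ) < r := by exact_mod_cast geo_r g
  have hN : (16 : ℤ) ≤ N := by exact_mod_cast g.hN
  unfold inSq src at h4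
  unfold inSq tgt at h5
  simp only at h4
  rcases h3 with h3 | h3 | h3
  · left
    have h6 : (r : ℤ) * 16 ≤ r * z.1 - r * z.2 := by nlinarith
    unfold dco
    split_ifs at h5 ⊢ with h7
    · omega
    · simp only at h5
      omega
  · right; left
    have h6 : (r : ℤ) * z.1 + r * z.2 ≤ r * (-6) := by nlinarith
    omega
  · right; right
    have h6 : (r : ℤ) * 5 ≤ r * z.1 + r * z.2 := by nlinarith
    omega

theorem tub_nq {N L r : ℕ} {Ci Co : Cel} {R : ℕ} (g : Geo N L r Ci Co R) (hz : S_z3) {e : Edg}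
    (h : e ∈ ET N L r Ci Co) : Nq e := by
  have h1 := tub_geo g hz h
  have h2 : (4 : ℤ) ≤ r := by exact_mod_cast g.hr
  unfold Nq
  omega

/-! ### the data -/

structure Ctx : Type where
  N : ℕ
  L : ℕ
  r : ℕ
  Ci : Cel
  Co : Cel
  R : ℕ
  F : Finset Edg
  G : Finset Edg

namespace Ctx

variable (c : Ctx)

/-- the configurations of step A -/
noncomputable def cf (H : Finset Edg) : Set Edg := (↑(FA c.N c.L c.r c.Ci c.Co c.R H) : Set Edg)
/-- connections -/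
def cn (A : Set Edg) (x y : ℤ × ℤ) : Prop := RZ {0} (bxz c.R) A x y
/-- explored squares -/
noncomputable def X : Finset Edg := ExA1 c.N c.L c.r c.Ci c.Co c.R c.F
noncomputable def A : Set Edg := c.cf c.F
noncomputable def A1 : Set Edg := c.cf (mrg c.X c.F (boxE c.R))
noncomputable def B : Set Edg := (↑(FB c.N c.L c.r c.Ci c.Co c.R (mrg c.X c.F c.G)) : Set Edg)
/-- the clusters of the closed region -/
def K (x : ℤ × ℤ) : Prop := KA1 c.N c.L c.r c.Ci c.Co c.R c.F x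
def xe (x : ℤ × ℤ) : Prop := XE c.N c.L c.r c.Ci c.Co x
abbrev eb : Set Edg := EB c.N c.L c.r
abbrev et : Set Edg := ET c.N c.L c.r c.Ci c.Co
/-- a vertex of the tube -/
def T : ℤ × ℤ := vp (c.r * (csq c.N c.Ci).1, c.r * (csq c.N c.Ci).2)
/-- geometry -/
def Gd : Prop := Geo c.N c.L c.r c.Ci c.Co c.R

variable {c}

theorem mem_cf {H : Finset Edg} {e : Edg} : e ∈ c.cf H ↔
    e ∈ boxE c.R ∧ ((e ∈ c.eb ∧ e ∈ H) ∨ (e ∉ c.eb ∧ e ∈ c.et)) := by
  classical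
  unfold cf FA
  rw [Finset.mem_coe]
  simp only [Finset.mem_filter]

theorem mem_B {e : Edg} : e ∈ c.B ↔
    e ∈ boxE c.R ∧ ((e ∈ c.eb ∨ e ∈ c.et) ∧ e ∈ mrg c.X c.F c.G) := by
  classical
  unfold B FB
  rw [Finset.mem_coe]
  simp only [Finset.mem_filter]

theorem mem_mrg {X F G : Finset Edg} {e : Edg} : e ∈ mrg X F G ↔ (e ∈ F ∧ e ∈ X) ∨ (e ∈ G ∧ e ∉ X) := by
  unfold mrg
  rw [Finset.mem_union, Finset.mem_inter, Finset.mem_sdiff]

theorem mem_X {e : Edg} : e ∈ c.X ↔ e ∈ boxE c.R ∧ e ∈ c.eb ∧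
    ∃ x, c.K x ∧ (Cor {0} 0 e x ∨ Cor {0} 1 e x) := by
  classical
  unfold X ExA1 K
  simp only [Finset.mem_filter]

theorem cf_et {H : Finset Edg} (hg : c.Gd) {e : Edg} (h1 : e ∉ c.eb) (h2 : e ∈ c.et) :
    e ∈ c.cf H := by
  rw [mem_cf]
  exact ⟨bxz_box (clo_bxz hg h1), Or.inr ⟨h1, h2⟩⟩

theorem cf_clo {H : Finset Edg} {e : Edg} (h1 : e ∉ c.eb) (h2 : e ∉ c.et) : e ∉ c.cf H := by
  rw [mem_cf]
  tauto

theorem cf_eb {H : Finset Edg} {e : Edg} (hb : e ∈ bxz (c.R : ℤ)) (h1 : e ∈ c.eb) :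
    e ∈ c.cf H ↔ e ∈ H := by
  rw [mem_cf]
  have := bxz_box hb
  tauto

/-- squares touched by `K` are explored -/
theorem touch {e : Edg} (hb : e ∈ bxz (c.R : ℤ)) (h1 : e ∈ c.eb) {x : ℤ × ℤ} (hx : c.K x)
    (hc : Cor {0} 0 e x ∨ Cor {0} 1 e x) : e ∈ c.X :=
  mem_X.2 ⟨bxz_box hb, h1, x, hx, hc⟩

theorem cn_rfl {A : Set Edg} {x : ℤ × ℤ} : c.cn A x x := Relation.EqvGen.refl _
theorem cn.symm {A : Set Edg} {x y : ℤ × ℤ} (h : c.cn A x y) : c.cn A y x := rz_symm h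
theorem cn.trans {A : Set Edg} {x y z : ℤ × ℤ} (h : c.cn A x y) (h' : c.cn A y z) : c.cn A x z :=
  rz_trans h h'

theorem K_conn {x y : ℤ × ℤ} (hx : c.K x) (h : c.cn c.A x y) : c.K y := by
  obtain ⟨z, h1, h2⟩ := hx
  exact ⟨z, h1, rz_trans h2 h⟩

theorem K_xe {x : ℤ × ℤ} (hx : c.xe x) : c.K x := ⟨x, hx, Relation.EqvGen.refl _⟩

theorem K_src {x : ℤ × ℤ} (hx : c.K x) : ∃ y, c.xe y ∧ c.cn c.A x y := by
  obtain ⟨z, h1, h2⟩ := hx
  exact ⟨z, h1, rz_symm h2⟩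

/-! ### first exit from the inner box -/

theorem exitA (hg : c.Gd) {H : Finset Edg} {a : ℕ} (ha : a < 3)
    (h : ∃ x : ℤ × ℤ, c.cn (c.cf H) (scz 0 0 a) x ∧ Tou c.R x) :
    (∃ x, c.xe x ∧ c.cn (c.cf H) (scz 0 0 a) x) ∨
    (∃ e x, e ∉ c.eb ∧ e ∈ c.et ∧ Cor {0} 0 e x ∧ c.cn (c.cf H) (scz 0 0 a) x) := by
  by_contra hcon
  rw [not_or] at hcon
  obtain ⟨hc1, hc2⟩ := hcon
  have gb := geo_bd hg
  -- the invariant
  have key : ∀ x, c.cn (c.cf H) (scz 0 0 a) x →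
      (-(2 * ((c.N : ℤ) * c.r) + 2) ≤ x.1 + x.2 ∧ x.1 + x.2 ≤ 2 * ((c.N : ℤ) * c.r) + 2) ∧
      (-(2 * ((c.N : ℤ) * c.r) + 2) ≤ x.1 - x.2 ∧ x.1 - x.2 ≤ 2 * ((c.N : ℤ) * c.r) + 2) := by
    intro x hx
    have := rz_ind (P := fun x => c.cn (c.cf H) (scz 0 0 a) x ∧
      ((-(2 * ((c.N : ℤ) * c.r) + 2) ≤ x.1 + x.2 ∧ x.1 + x.2 ≤ 2 * ((c.N : ℤ) * c.r) + 2) ∧
      (-(2 * ((c.N : ℤ) * c.r) + 2) ≤ x.1 - x.2 ∧ x.1 - x.2 ≤ 2 * ((c.N : ℤ) * c.r) + 2))) ?_ hx ?_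
    · exact this.2
    · rintro x y hxy ⟨hx1, hx2⟩
      obtain ⟨e, he, hz, k, j, t, hk, hG, hC, e1, e2⟩ := link_cn hxy
      have hxy' : c.cn (c.cf H) (scz 0 0 a) y := by
        refine hx1.trans ?_
        have := cn_link he hz hk hG hC
        rw [e1, e2]
        exact this
      refine ⟨hxy', ?_⟩
      by_cases hb : e ∈ c.eb
      · obtain ⟨z, hz1, hz2⟩ := hb
        obtain ⟨h4, h5⟩ := sq_in hz2
        unfold inSq src at h4
        simp only at h4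
        have h6 := dco_bd e
        have n1 := nrm_cases (dco e) j t
        have n2 := nrm_cases (dco e) (2 * (e.1 + e.2.1) + 1 - j) (2 * dco e + 1 - t)
        rw [← e1] at n1
        rw [← e2] at n2
        obtain ⟨c1, c2, c3⟩ := hC
        rcases hz1 with hz1 | hz1
        · -- the inner box
          unfold inSq tgt at h5
          have b1 : -((c.N : ℤ) * c.r) ≤ c.r * z.1 := by nlinarith
          have b2 : (c.r : ℤ) * z.1 + c.r ≤ (c.N : ℤ) * c.r := by nlinarith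
          have b3 : -((c.N : ℤ) * c.r) ≤ c.r * z.2 := by nlinarith
          have b4 : (c.r : ℤ) * z.2 + c.r ≤ (c.N : ℤ) * c.r := by nlinarith
          have d1 : (e.2.2 = true ∧ dco e = e.1 - e.2.1) ∨ (e.2.2 = false ∧ dco e = e.1 - e.2.1 - 1) := by
            unfold dco
            cases hb : e.2.2
            · right; simp
            · left; simp
          rcases d1 with ⟨d1, d2⟩ | ⟨d1, d2⟩
          · rw [d1] at h5
            simp only [if_true] at h5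
            omega
          · rw [d1] at h5
            simp only [Bool.false_eq_true, if_false] at h5
            omega
        · exfalso
          apply hz1
          have hr' : (0 : ℤ) < c.r := by omega
          by_contra hcon
          have : (z.1 < -(c.L : ℤ) ∨ (c.L : ℤ) ≤ z.1) ∨ (z.2 < -(c.L : ℤ) ∨ (c.L : ℤ) ≤ z.2) := by
            omega
          rcases this with (h | h) | (h | h)
          · have b1 : (c.r : ℤ) * z.1 + c.r ≤ -((c.L : ℤ) * c.r) := by nlinarith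
            omega
          · have b1 : (c.L : ℤ) * c.r ≤ c.r * z.1 := by nlinarith
            omega
          · have b1 : (c.r : ℤ) * z.2 + c.r ≤ -((c.L : ℤ) * c.r) := by nlinarith
            omega
          · have b1 : (c.L : ℤ) * c.r ≤ c.r * z.2 := by nlinarith
            omega
      · exfalso
        by_cases ht : e ∈ c.et
        · have hk0 : k = 0 := hG.2 (cf_et hg hb ht)
          subst hk0
          exact hc2 ⟨e, x, hb, ht, (cor_iff (Or.inl rfl)).2 ⟨hz, j, t, hC, e1⟩, hx1⟩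
        · have hk0 : k = 1 := by
            rcases hk with hk | hk
            · exact absurd (hG.1 hk) (cf_clo hb ht)
            · exact hk
          subst hk0
          exact hc1 ⟨x, ⟨e, ⟨hb, ht⟩, (cor_iff (Or.inr rfl)).2 ⟨hz, j, t, hC, e1⟩⟩, hx1⟩
    · refine ⟨cn_rfl, ?_⟩
      unfold scz
      simp only
      push_cast
      omega
  obtain ⟨x, hx, e, he, hc⟩ := h
  have h1 := key x hx
  apply he
  have h2 : ∃ k j t, Cn k e j t ∧ x = nrm {0} (dco e) j t := by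
    rcases hc with hc | hc
    · obtain ⟨_, j, t, h3, h4⟩ := (cor_iff (Or.inl rfl)).1 hc
      exact ⟨0, j, t, h3, h4⟩
    · obtain ⟨_, j, t, h3, h4⟩ := (cor_iff (Or.inr rfl)).1 hc
      exact ⟨1, j, t, h3, h4⟩
  obtain ⟨k, j, t, ⟨h3, h4, _⟩, h5⟩ := h2
  have n1 := nrm_cases (dco e) j t
  rw [← h5] at n1
  exact nm_bd (by omega) (by omega) (by omega) (by omega)

/-! ### the tube is connected -/

theorem cn0_vp {e : Edg} {j t : ℤ} (h : Cn 0 e j t) : (j, t) = vp (src e) ∨ (j, t) = vp (tgt e) := by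
  obtain ⟨x, y, b⟩ := e
  unfold Cn dco at h
  cases b
  · have e1 : vp (src (x, y, false)) = (x + y, x - y) := rfl
    have e2 : vp (tgt (x, y, false)) = (x + (y + 1), x - (y + 1)) := rfl
    rw [e1, e2]
    simp only [Bool.false_eq_true, if_false] at h
    simp only [Prod.mk.injEq]
    omega
  · have e1 : vp (src (x, y, true)) = (x + y, x - y) := rfl
    have e2 : vp (tgt (x, y, true)) = (x + 1 + y, x + 1 - y) := rfl
    rw [e1, e2]
    simp only [if_true] at h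
    simp only [Prod.mk.injEq]
    omega

theorem vp_cn {e : Edg} : Cn 0 e (vp (src e)).1 (vp (src e)).2 ∧
    (2 * (e.1 + e.2.1) + 1 - (vp (src e)).1, 2 * dco e + 1 - (vp (src e)).2) = vp (tgt e) := by
  obtain ⟨x, y, b⟩ := e
  cases b
  · have e1 : vp (src (x, y, false)) = (x + y, x - y) := rfl
    have e2 : vp (tgt (x, y, false)) = (x + (y + 1), x - (y + 1)) := rfl
    rw [e1, e2]
    unfold Cn dco
    simp only [Bool.false_eq_true, if_false, Prod.mk.injEq]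
    refine ⟨⟨?_, ?_, ?_⟩, ?_, ?_⟩ <;> first | omega | exact Or.inl trivial
  · have e1 : vp (src (x, y, true)) = (x + y, x - y) := rfl
    have e2 : vp (tgt (x, y, true)) = (x + 1 + y, x + 1 - y) := rfl
    rw [e1, e2]
    unfold Cn dco
    simp only [if_true, Prod.mk.injEq]
    refine ⟨⟨?_, ?_, ?_⟩, ?_, ?_⟩ <;> first | omega | exact Or.inl trivial

theorem tub_step (hg : c.Gd) (hz : S_z3) {H : Finset Edg} {e : Edg} (h1 : e ∉ c.eb) (h2 : e ∈ c.et) :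
    c.cn (c.cf H) (vp (src e)) (vp (tgt e)) := by
  have hq := tub_nq hg hz h2
  obtain ⟨h3, h4⟩ := vp_cn (e := e)
  have h5 := cn_link (clo_bxz hg h1) (Nq_zp hq) (Or.inl rfl)
    (by simp [cf_et (H := H) hg h1 h2] : (0 : ℤ) = 0 ↔ e ∈ c.cf H) h3
  have h6 := Cn_opp h3
  rw [Nq_nrm hq h3.1, Nq_nrm hq h6.1, h4] at h5
  exact h5

theorem tub_T (hg : c.Gd) (hz : S_z3) (hz2 : S_z2) {H : Finset Edg} {e : Edg}
    (h2 : e ∈ c.et) {x : ℤ × ℤ} (hx : Cor {0} 0 e x) : c.cn (c.cf H) x c.T := by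
  have hq := tub_nq hg hz h2
  obtain ⟨_, j, t, h3, h4⟩ := (cor_iff (Or.inl rfl)).1 hx
  rw [Nq_nrm hq h3.1] at h4
  obtain ⟨z, hz1, hz3⟩ := h2
  obtain ⟨h5, h6⟩ := sq_in hz3
  obtain ⟨k1, k2, _⟩ := hz2 c.N c.L c.Ci c.Co hg.hN hg.hL hg.hi hg.ho
  have hr : 0 < c.r := geo_r hg
  have hT : inSq c.r (csq c.N c.Ci) (c.r * (csq c.N c.Ci).1, c.r * (csq c.N c.Ci).2) := by
    unfold inSq
    simp only
    omega
  have hv : ∃ v, inSq c.r z v ∧ x = vp v := by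
    rcases cn0_vp h3 with h7 | h7
    · exact ⟨_, h5, by rw [h4, h7]⟩
    · exact ⟨_, h6, by rw [h4, h7]⟩
  obtain ⟨v, hv1, rfl⟩ := hv
  have h8 := k1 c.r z (csq c.N c.Ci) v _ hr hz1 k2 hv1 hT
  unfold T
  generalize ((c.r : ℤ) * (csq c.N c.Ci).1, (c.r : ℤ) * (csq c.N c.Ci).2) = w at h8
  induction h8 with
  | refl => exact cn_rfl
  | tail _ h9 ih =>
    refine ih.trans ?_
    obtain ⟨e', ⟨he1, he2⟩, h10 | h10⟩ := h9
    · rw [← h10.1, ← h10.2]
      exact tub_step hg hz he2 he1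
    · rw [← h10.1, ← h10.2]
      exact (tub_step hg hz he2 he1).symm

end Ctx

end TMA1
end Pool.Agent.W853.KI
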