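import Pool.Agent.W853.KI.MA1b

set_option autoImplicit false

namespace Pool.Agent.W853.KI
open H974 H906.Cyl
open H12S (Dir hbE segD rimE H4 Crs Nr sqE)
open Pool.Agent.H160R2.ML (nm)
open Pool.Agent.H160R2.MU (Cel csq cpos EP inSq)
open Pool.Agent.W801.OU
open Pool.Agent.W808.KZ (vp fp AdmZ OutF LandZ nrp ZCr mrg)
open Pool.Agent.W424.KI

namespace TMA1

/-! ### sides -/

theorem sd_h {R : ℤ} {e : Edg} (he : e ∈ bxz R) (hq : Nq e) {j t : ℤ}
    (hj : j = e.1 + e.2.1 ∨ j = e.1 + e.2.1 + 1) (ht : t = dco e ∨ t = dco e + 1) :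
    SdR R (j, t) (2 * (e.1 + e.2.1) + 1 - j, t) ∨ SdR R (2 * (e.1 + e.2.1) + 1 - j, t) (j, t) := by
  have hz := Nq_zp hq
  have e1 : 2 * (e.1 + e.2.1) + 1 - (e.1 + e.2.1) = e.1 + e.2.1 + 1 := by ring
  have e2 : 2 * (e.1 + e.2.1) + 1 - (e.1 + e.2.1 + 1) = e.1 + e.2.1 := by ring
  have b := SdR.bot e he hz
  have p := SdR.top e he hz
  rw [Nq_nrm hq (Or.inl rfl), Nq_nrm hq (Or.inr rfl)] at b p
  rcases hj with rfl | rfl <;> rcases ht with rfl | rfl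
  · rw [e1]; exact Or.inl b
  · rw [e1]; exact Or.inl p
  · rw [e2]; exact Or.inr b
  · rw [e2]; exact Or.inr p

theorem sd_v {R : ℤ} {e : Edg} (he : e ∈ bxz R) (hq : Nq e) {j t : ℤ}
    (hj : j = e.1 + e.2.1 ∨ j = e.1 + e.2.1 + 1) (ht : t = dco e ∨ t = dco e + 1) :
    SdR R (j, t) (j, 2 * dco e + 1 - t) ∨ SdR R (j, 2 * dco e + 1 - t) (j, t) := by
  have hz := Nq_zp hq
  have e1 : 2 * dco e + 1 - dco e = dco e + 1 := by ring
  have e2 : 2 * dco e + 1 - (dco e + 1) = dco e := by ring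
  have b := SdR.lft e he hz
  have p := SdR.rgt e he hz
  rw [Nq_nrm hq (Or.inl rfl), Nq_nrm hq (Or.inl rfl)] at b
  rw [Nq_nrm hq (Or.inr rfl), Nq_nrm hq (Or.inr rfl)] at p
  rcases hj with rfl | rfl <;> rcases ht with rfl | rfl
  · rw [e1]; exact Or.inl b
  · rw [e2]; exact Or.inr b
  · rw [e1]; exact Or.inl p
  · rw [e2]; exact Or.inr p

namespace Ctx

variable {c : Ctx}

/-- the situation -/
structure Sit (c : Ctx) : Prop where
  g : c.Gd
  z2 : S_z2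
  z3 : S_z3
  coc : S_COC
  na : S_NA
  xch : S_XCH
  onb : S_ONB
  exa : S_EXA1
  tri : S_TRIB
  hF : c.F ⊆ boxE c.R
  hG : c.G ⊆ boxE c.R
  se : SE3 c.R c.A

/-- the sector which avoids the closed region -/
def Av (c : Ctx) (s : ℕ) : Prop := s < 3 ∧ ∀ x, c.xe x → ¬ c.cn c.A (scz 0 0 s) x

variable {s : ℕ}

theorem tou_se {A : Set Edg} (h : SE3 c.R A) {a : ℕ} (ha : a < 3) :
    ∃ x : ℤ × ℤ, c.cn A (scz 0 0 a) x ∧ Tou c.R x := by
  obtain ⟨x, h1, e, he, h2⟩ := h.2 a ha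
  exact ⟨x, h1, e, he, h2⟩

theorem nK_s (hs : c.Av s) : ¬ c.K (scz 0 0 s) := by
  intro h
  obtain ⟨y, h1, h2⟩ := K_src h
  exact hs.2 y h1 h2

theorem s_T (S : Sit c) (hs : c.Av s) : c.cn c.A (scz 0 0 s) c.T := by
  rcases exitA S.g hs.1 (tou_se S.se hs.1) with ⟨x, h1, h2⟩ | ⟨e, x, _, h2, h3, h4⟩
  · exact absurd h2 (hs.2 x h1)
  · exact h4.trans (tub_T S.g S.z3 S.z2 h2 h3)

theorem nK_T (S : Sit c) (hs : c.Av s) : ¬ c.K c.T :=
  fun h => nK_s hs (K_conn h (s_T S hs).symm)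

theorem K_a (S : Sit c) (hs : c.Av s) {a : ℕ} (ha : a < 3) (hne : a ≠ s) : c.K (scz 0 0 a) := by
  rcases exitA S.g ha (tou_se S.se ha) with ⟨x, h1, h2⟩ | ⟨e, x, _, h2, h3, h4⟩
  · exact K_conn (K_xe h1) h2.symm
  · exfalso
    have h5 : c.cn c.A (scz 0 0 a) c.T := h4.trans (tub_T S.g S.z3 S.z2 h2 h3)
    exact S.se.1 a s ha hs.1 hne (h5.trans (s_T S hs).symm)

theorem K1 (S : Sit c) {x : ℤ × ℤ} :
    KA1 c.N c.L c.r c.Ci c.Co c.R (mrg c.X c.F (boxE c.R)) x ↔ c.K x :=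
  (S.exa c.N c.L c.r c.Ci c.Co c.R S.g c.F (boxE c.R) S.hF (Finset.Subset.refl _)).2.1 x

theorem cn1 (S : Sit c) {x y : ℤ × ℤ} (hx : c.K x) : c.cn c.A1 x y ↔ c.cn c.A x y :=
  (S.exa c.N c.L c.r c.Ci c.Co c.R S.g c.F (boxE c.R) S.hF (Finset.Subset.refl _)).2.2 x y hx

theorem K_conn1 (S : Sit c) {x y : ℤ × ℤ} (hx : c.K x) (h : c.cn c.A1 x y) : c.K y :=
  K_conn hx ((cn1 S hx).1 h)

theorem se1 (S : Sit c) (hs : c.Av s) (hR : 1 ≤ c.R) : SE3 c.R c.A1 := by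
  refine (S.onb c.R c.A1 hR).2.2 ?_
  intro a b ha hb hab h
  by_cases h1 : a = s
  · have h2 : c.K (scz 0 0 b) := K_a S hs hb (fun h => hab (h1.trans h.symm))
    exact S.se.1 a b ha hb hab (cn.symm ((cn1 S h2).1 (cn.symm h)))
  · exact S.se.1 a b ha hb hab ((cn1 S (K_a S hs ha h1)).1 h)

theorem s_T1 (S : Sit c) (hs : c.Av s) (hR : 1 ≤ c.R) : c.cn c.A1 (scz 0 0 s) c.T := by
  rcases exitA S.g hs.1 (tou_se (se1 S hs hR) hs.1) with ⟨x, h1, h2⟩ | ⟨e, x, _, h2, h3, h4⟩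
  · exact absurd (K_conn1 S (K_xe h1) (cn.symm h2)) (nK_s hs)
  · exact h4.trans (tub_T S.g S.z3 S.z2 h2 h3)

theorem nK_T1 (S : Sit c) (hs : c.Av s) {x : ℤ × ℤ} (hx : c.K x) : ¬ c.cn c.A1 x c.T :=
  fun h => nK_T S hs (K_conn1 S hx h)

/-- connections of the closed region -/
theorem clo_cn (S : Sit c) {H : Finset Edg} {x y : ℤ × ℤ}
    (h : RZ {0} (Clo c.N c.L c.r c.Ci c.Co) ∅ x y) : c.cn (c.cf H) x y := by
  refine rz_ind (P := fun y => c.cn (c.cf H) x y) ?_ h cn_rfl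
  intro y z hyz hy
  obtain ⟨e, he, hz, k, j, t, hk, hG, hC, e1, e2⟩ := link_cn hyz
  refine hy.trans ?_
  rw [e1, e2]
  refine cn_link (clo_bxz S.g he.1) hz hk ?_ hC
  rw [hG]
  exact ⟨fun h => absurd h (Set.notMem_empty _), fun h => absurd h (cf_clo he.1 he.2)⟩

/-- the contradiction through the cocycle lemma -/
theorem cyc (S : Sit c) (hs : c.Av s) (hR : 1 ≤ c.R) {p v1 v2 u vT : ℤ × ℤ} (hp : ¬ c.K p)
    (h1 : SdR c.R p v1 ∨ SdR c.R v1 p) (hv1 : c.cn c.A1 v1 c.T)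
    (h2 : SdR c.R p v2 ∨ SdR c.R v2 p) (hv2 : c.K v2)
    (hu : c.K u) (h3 : SdR c.R u vT ∨ SdR c.R vT u) (hvT : c.cn c.A1 vT c.T) : False := by
  have se1' := se1 S hs hR
  have hna : ∀ x y, (SdR c.R x y ∨ SdR c.R y x) → ¬ c.cn c.A1 x y := by
    intro x y hxy h
    rcases hxy with hxy | hxy
    · exact S.na c.R c.A1 hR se1' x y hxy h
    · exact S.na c.R c.A1 hR se1' y x hxy h.symm
  have hpT : ¬ c.cn c.A1 p c.T := fun h => hna p v1 h1 (h.trans hv1.symm)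
  obtain ⟨φ, f1, f2⟩ := S.coc c.R c.A1
    (fun x y => (c.cn c.A1 x p ∧ c.cn c.A1 y c.T) ∨ (c.cn c.A1 x c.T ∧ c.cn c.A1 y p)) hR
    (fun x y h => by
      rcases h with h | h
      · exact Or.inr ⟨h.2, h.1⟩
      · exact Or.inl ⟨h.2, h.1⟩)
    (fun x x' y h h' => by
      have h'' : c.cn c.A1 x' x := cn.symm h
      rcases h' with h' | h'
      · exact Or.inl ⟨h''.trans h'.1, h'.2⟩
      · exact Or.inr ⟨h''.trans h'.1, h'.2⟩)
    (fun a b ha hb _ h => by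
      have key : ∀ a, a < 3 → ¬ c.cn c.A1 (scz 0 0 a) p := by
        intro a ha h
        by_cases hne : a = s
        · rw [hne] at h
          exact hpT (h.symm.trans (s_T1 S hs hR))
        · exact hp (K_conn1 S (K_a S hs ha hne) h)
      rcases h with h | h
      · exact key a ha h.1
      · exact key b hb h.2)
  have f2' : ∀ x y, (SdR c.R x y ∨ SdR c.R y x) →
      (((c.cn c.A1 x p ∧ c.cn c.A1 y c.T) ∨ (c.cn c.A1 x c.T ∧ c.cn c.A1 y p)) ↔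
        ¬ (φ x ↔ φ y)) := by
    intro x y hxy
    rcases hxy with hxy | hxy
    · exact f2 x y hxy
    · have := f2 y x hxy
      constructor
      · rintro (h | h) h'
        · exact this.1 (Or.inr ⟨h.2, h.1⟩) h'.symm
        · exact this.1 (Or.inl ⟨h.2, h.1⟩) h'.symm
      · intro h
        rcases this.2 (fun h' => h h'.symm) with h' | h'
        · exact Or.inr ⟨h'.2, h'.1⟩
        · exact Or.inl ⟨h'.2, h'.1⟩
  -- `φ p ≠ φ T`
  have g1 : ¬ (φ p ↔ φ c.T) := by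
    intro h
    have h4 := (f2' p v1 h1).1 (Or.inl ⟨cn_rfl, hv1⟩)
    exact h4 (h.trans (f1 v1 c.T hv1).symm)
  -- `φ p = φ v2`
  have g2 : φ p ↔ φ v2 := by
    by_contra h
    rcases (f2' p v2 h2).2 h with h' | h'
    · exact nK_T1 S hs hv2 h'.2
    · exact hpT h'.1
  -- `φ u = φ vT`
  have g3 : φ u ↔ φ vT := by
    by_contra h
    rcases (f2' u vT h3).2 h with h' | h'
    · exact hp (K_conn1 S hu h'.1)
    · exact nK_T1 S hs hu h'.1
  obtain ⟨y, hy1, hy2⟩ := K_src hv2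
  obtain ⟨y', hy1', hy2'⟩ := K_src hu
  have g4 : φ v2 ↔ φ y := f1 v2 y ((cn1 S hv2).2 hy2)
  have g5 : φ u ↔ φ y' := f1 u y' ((cn1 S hu).2 hy2')
  have g6 : φ y ↔ φ y' := by
    refine S.xch c.N c.L c.r c.Ci c.Co c.R S.g φ ?_ ?_ y y' hy1 hy1'
    · intro x z h
      exact f1 x z (clo_cn S h)
    · intro x z hx hz hxz
      by_contra h
      rcases (f2' x z (Or.inl hxz)).2 h with h' | h'
      · exact hp (K_conn1 S (K_xe hx) h'.1)
      · exact nK_T1 S hs (K_xe hx) h'.1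
  have g7 : φ vT ↔ φ c.T := f1 vT c.T hvT
  exact g1 (g2.trans (g4.trans (g6.trans (g5.symm.trans (g3.trans g7)))))

/-- going round a face outside `K`: one square -/
theorem turn (S : Sit c) (hs : c.Av s) (hR : 1 ≤ c.R) {u vT : ℤ × ℤ} (hu : c.K u)
    (h3 : SdR c.R u vT ∨ SdR c.R vT u) (hvT : c.cn c.A1 vT c.T) {e : Edg} (he : e ∈ bxz (c.R : ℤ))
    (hq : Nq e) {j t : ℤ} (hC : Cn 1 e j t) (hp : ¬ c.K (j, t)) :
    c.cn c.A1 (2 * (e.1 + e.2.1) + 1 - j, t) c.T ↔ c.cn c.A1 (j, 2 * dco e + 1 - t) c.T := by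
  have hz := Nq_zp hq
  have hCa : Cn 0 e (2 * (e.1 + e.2.1) + 1 - j) t := by
    obtain ⟨h1, h2, h4⟩ := hC
    exact ⟨by omega, h2, by omega⟩
  have hCb : Cn 0 e j (2 * dco e + 1 - t) := by
    obtain ⟨h1, h2, h4⟩ := hC
    exact ⟨h1, by omega, by omega⟩
  have sa := sd_h he hq hC.1 hC.2.1
  have sb := sd_v he hq hC.1 hC.2.1
  by_cases hA : e ∈ c.A1
  · have h5 := cn_link (G := c.A1) he hz (Or.inl rfl) (by simp [hA]) hCa
    rw [Nq_nrm hq hCa.1] at h5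
    have e1 : 2 * (e.1 + e.2.1) + 1 - (2 * (e.1 + e.2.1) + 1 - j) = j := by ring
    rw [e1, Nq_nrm hq hC.1] at h5
    exact ⟨fun h => (cn.symm h5).trans h, fun h => cn.trans h5 h⟩
  · -- a closed square
    by_cases hb : e ∈ c.eb
    · have h6 : e ∉ mrg c.X c.F (boxE c.R) := fun h => hA ((cf_eb he hb).2 h)
      rw [mem_mrg] at h6
      have h7 : e ∈ c.X := by
        by_contra h
        exact h6 (Or.inr ⟨bxz_box he, h⟩)
      have h8 : e ∉ c.F := fun h => h6 (Or.inl ⟨h, h7⟩)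
      have h9 : e ∉ c.A := fun h => h8 ((cf_eb he hb).1 h)
      obtain ⟨_, _, w, hw, hcor⟩ := mem_X.1 h7
      have hK : c.K (2 * (e.1 + e.2.1) + 1 - j, t) ∨ c.K (j, 2 * dco e + 1 - t) := by
        rcases hcor with hcor | hcor
        · obtain ⟨_, j', t', hC', hw'⟩ := (cor_iff (Or.inl rfl)).1 hcor
          rw [Nq_nrm hq hC'.1] at hw'
          rw [hw'] at hw
          obtain ⟨k1, k2, k3⟩ := hC
          obtain ⟨k4, k5, k6⟩ := hC'
          have : (j' = 2 * (e.1 + e.2.1) + 1 - j ∧ t' = t) ∨ (j' = j ∧ t' = 2 * dco e + 1 - t) := by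
            omega
          rcases this with ⟨rfl, rfl⟩ | ⟨rfl, rfl⟩
          · exact Or.inl hw
          · exact Or.inr hw
        · exfalso
          obtain ⟨_, j', t', hC', hw'⟩ := (cor_iff (Or.inr rfl)).1 hcor
          rw [Nq_nrm hq hC'.1] at hw'
          rw [hw'] at hw
          have h10 := cn_link (G := c.A) he hz (Or.inr rfl) (by simp [h9]) hC
          rw [Nq_nrm hq hC.1, Nq_nrm hq (Cn_opp hC).1] at h10
          obtain ⟨k1, k2, k3⟩ := hC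
          obtain ⟨k4, k5, k6⟩ := hC'
          have : (j' = j ∧ t' = t) ∨
              (j' = 2 * (e.1 + e.2.1) + 1 - j ∧ t' = 2 * dco e + 1 - t) := by
            omega
          rcases this with ⟨rfl, rfl⟩ | ⟨rfl, rfl⟩
          · exact hp hw
          · exact hp (K_conn hw (cn.symm h10))
      constructor
      · intro h
        exfalso
        rcases hK with hK | hK
        · exact nK_T1 S hs hK h
        · exact cyc S hs hR hp sa h sb hK hu h3 hvT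
      · intro h
        exfalso
        rcases hK with hK | hK
        · exact cyc S hs hR hp sb h sa hK hu h3 hvT
        · exact nK_T1 S hs hK h
    · exfalso
      have ht : e ∉ c.et := fun ht => hA (cf_et S.g hb ht)
      apply hp
      apply K_xe
      exact ⟨e, ⟨hb, ht⟩, (cor_iff (Or.inr rfl)).2 ⟨hz, j, t, hC, (Nq_nrm hq hC.1).symm⟩⟩

/-- neighbours of a point -/
def Nb (p v : ℤ × ℤ) : Prop := (v.1 = p.1 ∧ (v.2 = p.2 + 1 ∨ v.2 = p.2 - 1)) ∨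
  (v.2 = p.2 ∧ (v.1 = p.1 + 1 ∨ v.1 = p.1 - 1))

/-- the squares at a point are in the box -/
def InB (c : Ctx) (p : ℤ × ℤ) : Prop := ∀ s d : ℤ, (s = p.1 ∨ s = p.1 - 1) → (d = p.2 ∨ d = p.2 - 1) →
  edz s d ∈ bxz (c.R : ℤ)

/-- going round a face outside `K` -/
theorem four (S : Sit c) (hs : c.Av s) (hR : 1 ≤ c.R) {u vT : ℤ × ℤ} (hu : c.K u)
    (h3 : SdR c.R u vT ∨ SdR c.R vT u) (hvT : c.cn c.A1 vT c.T) {p : ℤ × ℤ} (hp : ¬ c.K p)
    (hf : Far p) (hb : InB c p) (hodd : (p.1 + p.2) % 2 = 1) {v : ℤ × ℤ} (hv : Nb p v)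
    (hvT' : c.cn c.A1 v c.T) : ∀ v', Nb p v' → c.cn c.A1 v' c.T := by
  obtain ⟨j, t⟩ := p
  have tn : ∀ s' d' : ℤ, (s' = j ∨ s' = j - 1) → (d' = t ∨ d' = t - 1) →
      (c.cn c.A1 (2 * s' + 1 - j, t) c.T ↔ c.cn c.A1 (j, 2 * d' + 1 - t) c.T) := by
    intro s' d' h1 h2
    have hq : Nq (edz s' d') := by
      unfold Nq
      rw [edz_s, edz_d]
      unfold Far at hf
      simp only at hf
      omega
    have hC : Cn 1 (edz s' d') j t := by
      unfold Cn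
      rw [edz_s, edz_d]
      simp only at hodd
      exact ⟨by omega, by omega, hodd⟩
    have := turn S hs hR hu h3 hvT (hb s' d' h1 h2) hq hC hp
    rw [edz_s, edz_d] at this
    exact this
  have a1 := tn j t (Or.inl rfl) (Or.inl rfl)
  have a2 := tn (j - 1) t (Or.inr rfl) (Or.inl rfl)
  have a3 := tn j (t - 1) (Or.inl rfl) (Or.inr rfl)
  have a4 := tn (j - 1) (t - 1) (Or.inr rfl) (Or.inr rfl)
  have e1 : 2 * j + 1 - j = j + 1 := by ring
  have e2 : 2 * (j - 1) + 1 - j = j - 1 := by ring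
  have e3 : 2 * t + 1 - t = t + 1 := by ring
  have e4 : 2 * (t - 1) + 1 - t = t - 1 := by ring
  rw [e1, e3] at a1
  rw [e2, e3] at a2
  rw [e1, e4] at a3
  rw [e2, e4] at a4
  have all : c.cn c.A1 (j + 1, t) c.T := by
    obtain ⟨v1, v2⟩ := v
    unfold Nb at hv
    simp only at hv
    rcases hv with ⟨rfl, rfl | rfl⟩ | ⟨rfl, rfl | rfl⟩
    · exact a1.2 hvT'
    · exact a3.2 hvT'
    · exact hvT'
    · exact a1.2 (a2.1 hvT')
  intro v' hv'
  obtain ⟨v1, v2⟩ := v'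
  unfold Nb at hv'
  simp only at hv'
  rcases hv' with ⟨rfl, rfl | rfl⟩ | ⟨rfl, rfl | rfl⟩
  · exact a1.1 all
  · exact a3.1 all
  · exact all
  · exact a2.2 (a1.1 all)

end Ctx

end TMA1
end Pool.Agent.W853.KI
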